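import Mathlib

/-!
# A sequentially pseudocompact group which is not selectively sequentially pseudocompact

`K` is a set of the size of the continuum, `G` is the vector space over the field with two elements
with basis `K`.  For every `ξ` in `K` there is a homomorphism `chi ξ` from `G` to the field.
The homomorphisms are chosen such that for every injective sequence in `G` some `chi ξ` takes both
values infinitely often on this sequence, and such that for any prescribed values on countably many
`ξ` there is an element `g` of `G` with these values `chi ξ g`.  The image of `G` in the power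
`(ZMod 2) ^ K` is the group which is looked for.
-/

set_option autoImplicit false

open Set Topology Filter Cardinal

namespace Pool.Agent.Results.MP_3c9c51_gt.BooleanGroup

/-- For each sequence of nonempty open sets `U n` there are an infinite set `J` and a point `x` all
of whose open neighbourhoods meet all but finitely many of the sets `U n`, `n ∈ J`. -/
def SequentiallyPseudocompact (X : Type) [TopologicalSpace X] : Prop :=
  ∀ U : ℕ → Set X, (∀ n, IsOpen (U n) ∧ (U n).Nonempty) →
    ∃ J : Set ℕ, J.Infinite ∧ ∃ x : X, ∀ W : Set X, IsOpen W → x ∈ W →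
      {n | n ∈ J ∧ W ∩ U n = ∅}.Finite

/-- For each sequence of nonempty open sets `U n` there are points `x n ∈ U n` such that the sequence
`x` has a convergent subsequence. -/
def SelectivelySequentiallyPseudocompact (X : Type) [TopologicalSpace X] : Prop :=
  ∀ U : ℕ → Set X, (∀ n, IsOpen (U n) ∧ (U n).Nonempty) →
    ∃ x : ℕ → X, (∀ n, x n ∈ U n) ∧
      ∃ φ : ℕ → ℕ, StrictMono φ ∧ ∃ a : X, Tendsto (fun n => x (φ n)) atTop (𝓝 a)

/-- the index set -/
abbrev K : Type := ℕ → Bool

/-- the Boolean group with basis `K` -/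
abbrev G : Type := K →₀ ZMod 2

lemma mk_K : #K = 𝔠 := by simp [K]

lemma exists_code : ∃ e : K → (ℕ → K × ZMod 2) × K, Function.Surjective e := by
  have h : #((ℕ → K × ZMod 2) × K) ≤ #K := by
    have h1 : #(K × ZMod 2) ≤ 𝔠 := by
      rw [Cardinal.mk_prod, Cardinal.lift_id, Cardinal.lift_id, mk_K]
      calc 𝔠 * #(ZMod 2) ≤ 𝔠 * 𝔠 := by
            gcongr
            exact (Cardinal.mk_le_aleph0).trans Cardinal.aleph0_le_continuum
        _ = 𝔠 := Cardinal.continuum_mul_self
    rw [Cardinal.mk_prod, Cardinal.lift_id, Cardinal.lift_id, mk_K, ← Cardinal.power_def, Cardinal.mk_nat]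
    calc #(K × ZMod 2) ^ ℵ₀ * 𝔠 ≤ 𝔠 ^ ℵ₀ * 𝔠 :=
          mul_le_mul_left (Cardinal.power_le_power_right h1) 𝔠
      _ = 𝔠 := by rw [Cardinal.continuum_power_aleph0, Cardinal.continuum_mul_self]
  obtain ⟨f⟩ := h
  have : Nonempty ((ℕ → K × ZMod 2) × K) := inferInstance
  exact ⟨Function.invFun f, Function.invFun_surjective f.injective⟩

lemma exists_seq : ∃ s : K → (ℕ → G), Function.Surjective s := by
  have h : #(ℕ → G) ≤ #K := by
    have h1 : #G ≤ 𝔠 := by
      rw [Cardinal.mk_finsupp_lift_of_infinite K (ZMod 2)]
      simp only [Cardinal.lift_id, mk_K]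
      exact max_le le_rfl ((Cardinal.mk_le_aleph0).trans Cardinal.aleph0_le_continuum)
    rw [mk_K, ← Cardinal.power_def, Cardinal.mk_nat]
    calc #G ^ ℵ₀ ≤ 𝔠 ^ ℵ₀ := Cardinal.power_le_power_right h1
      _ = 𝔠 := Cardinal.continuum_power_aleph0
  obtain ⟨f⟩ := h
  exact ⟨Function.invFun f, Function.invFun_surjective f.injective⟩

/-- the homomorphism with the given values on the basis -/
noncomputable def ev (f : K → ZMod 2) (g : G) : ZMod 2 := g.sum fun i c => c * f i

lemma ev_add (f : K → ZMod 2) (g h : G) : ev f (g + h) = ev f g + ev f h := by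
  unfold ev
  rw [Finsupp.sum_add_index']
  · intro i; simp
  · intro i a b; ring

lemma ev_single (f : K → ZMod 2) (i : K) : ev f (Finsupp.single i 1) = f i := by
  unfold ev
  rw [Finsupp.sum_single_index] <;> simp

lemma ev_congr (f f' : K → ZMod 2) (g : G) (h : ∀ i ∈ g.support, f i = f' i) :
    ev f g = ev f' g := by
  unfold ev
  exact Finsupp.sum_congr fun i hi => by rw [h i hi]

lemma continuous_ev (g : G) : Continuous fun f : K → ZMod 2 => ev f g := by
  unfold ev Finsupp.sum
  exact continuous_finsetSum _ fun i _ =>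
    (continuous_of_discreteTopology (f := fun z : ZMod 2 => g i * z)).comp (continuous_apply i)

/-- the Baire category argument -/
lemma exists_osc (s : ℕ → G) (hs : Function.Injective s) :
    ∃ f : K → ZMod 2, ∀ c : ZMod 2, ∀ N, ∃ n ≥ N, ev f (s n) = c := by
  have hdense : Dense (⋂ p : ZMod 2 × ℕ, {f : K → ZMod 2 | ∃ n ≥ p.2, ev f (s n) = p.1}) := by
    apply dense_iInter_of_isOpen
    · rintro ⟨c, N⟩
      have : {f : K → ZMod 2 | ∃ n ≥ N, ev f (s n) = c} =
          ⋃ n, ⋃ (_ : n ≥ N), (fun f : K → ZMod 2 => ev f (s n)) ⁻¹' {c} := by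
        ext f; simp
      show IsOpen {f : K → ZMod 2 | ∃ n ≥ N, ev f (s n) = c}
      rw [this]
      exact isOpen_iUnion fun n => isOpen_iUnion fun _ =>
        (isOpen_discrete {c}).preimage (continuous_ev (s n))
    · rintro ⟨c, N⟩
      rw [dense_iff_inter_open]
      intro O hO hne
      obtain ⟨f, hf⟩ := hne
      obtain ⟨F, u, hu, hsub⟩ := isOpen_pi_iff.1 hO f hf
      -- finitely many elements of `G` have their support in `F`
      have hfin : {g : G | (g.support : Set K) ⊆ F}.Finite := by
        classical
        have : Finite (F → ZMod 2) := inferInstance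
        refine Set.Finite.of_injOn (f := fun g : G => fun i : F => g i) (t := Set.univ)
          (fun _ _ => mem_univ _) ?_ Set.finite_univ
        intro g hg g' hg' h
        ext i
        by_cases hi : i ∈ F
        · exact congrFun h ⟨i, hi⟩
        · have h1 : g i = 0 := by
            by_contra h1
            exact hi (hg (Finsupp.mem_support_iff.2 h1))
          have h2 : g' i = 0 := by
            by_contra h1
            exact hi (hg' (Finsupp.mem_support_iff.2 h1))
          rw [h1, h2]
      obtain ⟨n, hnN, hn⟩ : ∃ n ≥ N, ¬ ((s n).support : Set K) ⊆ F := by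
        by_contra hcon
        push Not at hcon
        have hinf : (s '' Ici N).Infinite := (Set.Ici_infinite N).image hs.injOn
        exact hinf (hfin.subset (by rintro _ ⟨n, hn, rfl⟩; exact hcon n hn))
      obtain ⟨i, hi, hiF⟩ := Set.not_subset.1 hn
      classical
      -- change the value at `i`
      have hval : ∀ a : ZMod 2, ev (Function.update f i a) (s n) =
          ev (Function.update f i 0) (s n) + a := by
        intro a
        have hsi : s n i = 1 := by
          have h0 : s n i ≠ 0 := Finsupp.mem_support_iff.1 hi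
          revert h0
          generalize s n i = z
          revert z
          decide
        unfold ev Finsupp.sum
        rw [← Finset.add_sum_erase _ _ hi, ← Finset.add_sum_erase _ _ hi]
        beta_reduce
        rw [Function.update_self, Function.update_self, hsi]
        have : ∀ b : ZMod 2, ∑ x ∈ (s n).support.erase i, s n x * Function.update f i b x =
            ∑ x ∈ (s n).support.erase i, s n x * f x := by
          intro b
          refine Finset.sum_congr rfl fun x hx => ?_
          rw [Function.update_of_ne (Finset.ne_of_mem_erase hx)]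
        rw [this a, this 0]
        ring
      refine ⟨Function.update f i (c - ev (Function.update f i 0) (s n)), hsub ?_, n, hnN, ?_⟩
      · intro x hx
        have hxi : x ≠ i := fun h => hiF (h ▸ hx)
        rw [Function.update_of_ne hxi]
        exact (hu x hx).2
      · show ev _ (s n) = c
        rw [hval]
        ring
  obtain ⟨f, hf⟩ := hdense.nonempty
  refine ⟨f, fun c N => ?_⟩
  exact mem_iInter.1 hf (c, N)

/-- the coding function -/
noncomputable def code : K → (ℕ → K × ZMod 2) × K := Classical.choose exists_code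
lemma code_surj : Function.Surjective code := Classical.choose_spec exists_code

/-- the enumeration of the sequences in `G` -/
noncomputable def sq : K → (ℕ → G) := Classical.choose exists_seq
lemma sq_surj : Function.Surjective sq := Classical.choose_spec exists_seq

/-- the union of the supports -/
def AA (ξ : K) : Set K := ⋃ n, ((sq ξ n).support : Set K)

lemma countable_AA (ξ : K) : (AA ξ).Countable :=
  Set.countable_iUnion fun n => (Finset.countable_toSet _)

open Classical in
/-- an oscillating homomorphism for the sequence -/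
noncomputable def osc (ξ : K) : K → ZMod 2 :=
  if h : Function.Injective (sq ξ) then Classical.choose (exists_osc (sq ξ) h) else fun _ => 0

lemma osc_spec (ξ : K) (h : Function.Injective (sq ξ)) :
    ∀ c : ZMod 2, ∀ N, ∃ n ≥ N, ev (osc ξ) (sq ξ n) = c := by
  unfold osc
  rw [dif_pos h]
  exact Classical.choose_spec (exists_osc (sq ξ) h)

open Classical in
/-- the values of the homomorphism `chi ξ` on the basis -/
noncomputable def val (ξ i : K) : ZMod 2 :=
  if i ∈ AA ξ then osc ξ i
  else if h : ∃ n, ((code i).1 n).1 = ξ then ((code i).1 (Classical.choose h)).2 else 0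

/-- the homomorphism from `G` to the product -/
noncomputable def Phi : G →+ (K → ZMod 2) where
  toFun g ξ := ev (val ξ) g
  map_zero' := by
    funext ξ
    simp [ev]
  map_add' g h := by
    funext ξ
    exact ev_add _ _ _

/-- prescribed values on a countable set -/
lemma exists_val (S : Set K) (hS : S.Countable) (y : K → ZMod 2) :
    ∃ g : G, ∀ ξ ∈ S, Phi g ξ = y ξ := by
  rcases S.eq_empty_or_nonempty with rfl | hne
  · exact ⟨0, by simp⟩
  obtain ⟨t, ht⟩ := hS.exists_eq_range hne
  let w : ℕ → K × ZMod 2 := fun n => (t n, y (t n))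
  have hc : (⋃ ξ ∈ S, AA ξ).Countable := hS.biUnion fun ξ _ => countable_AA ξ
  -- an index with the given code outside a countable set
  obtain ⟨i, hi1, hi2⟩ : ∃ i : K, (code i).1 = w ∧ i ∉ ⋃ ξ ∈ S, AA ξ := by
    by_contra hcon
    push Not at hcon
    have hsub : (fun k : K => Function.surjInv code_surj (w, k)) '' univ ⊆ ⋃ ξ ∈ S, AA ξ := by
      rintro _ ⟨k, -, rfl⟩
      apply hcon
      rw [Function.surjInv_eq code_surj]
    have h1 := hc.mono hsub
    have hinj : Function.Injective (fun k : K => Function.surjInv code_surj (w, k)) := by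
      intro k k' h
      have := Function.injective_surjInv code_surj h
      exact (Prod.ext_iff.1 this).2
    have h2 : (univ : Set K).Countable := by
      refine Set.countable_of_injective_of_countable_image hinj.injOn h1
    have h3 : #K ≤ ℵ₀ := by
      rw [Set.countable_univ_iff] at h2
      exact Cardinal.mk_le_aleph0_iff.2 h2
    rw [mk_K] at h3
    exact absurd h3 (not_le.2 Cardinal.aleph0_lt_continuum)
  refine ⟨Finsupp.single i 1, fun ξ hξ => ?_⟩
  show ev (val ξ) (Finsupp.single i 1) = y ξ
  rw [ev_single]
  have hiA : i ∉ AA ξ := fun h => hi2 (mem_biUnion hξ h)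
  have hex : ∃ n, ((code i).1 n).1 = ξ := by
    rw [ht] at hξ
    obtain ⟨n, rfl⟩ := hξ
    exact ⟨n, by rw [hi1]⟩
  unfold val
  rw [if_neg hiA, dif_pos hex]
  have h := Classical.choose_spec hex
  generalize Classical.choose hex = n at h
  rw [hi1] at h ⊢
  show y (t n) = y ξ
  rw [show t n = ξ from h]

/-- the group of the example -/
abbrev HH : Type := (AddMonoidHom.range Phi)

lemma osc_HH (x : ℕ → HH) (hx : Function.Injective x) (a : HH) :
    ¬ Tendsto x atTop (𝓝 a) := by
  intro hlim
  have hx' : ∀ n, ∃ g : G, Phi g = (x n : K → ZMod 2) := fun n => (x n).2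
  choose g hg using hx'
  obtain ⟨ξ, hξ⟩ := sq_surj g
  have hinj : Function.Injective (sq ξ) := by
    rw [hξ]
    intro m n h
    apply hx
    apply Subtype.ext
    rw [← hg, ← hg, h]
  have hval : ∀ n, (x n : K → ZMod 2) ξ = ev (osc ξ) (sq ξ n) := by
    intro n
    rw [← hg n]
    show ev (val ξ) (g n) = _
    rw [← hξ]
    apply ev_congr
    intro i hi
    have : i ∈ AA ξ := mem_iUnion.2 ⟨n, hi⟩
    unfold val
    rw [if_pos this]
  have hl : Tendsto (fun n => (x n : K → ZMod 2) ξ) atTop (𝓝 ((a : K → ZMod 2) ξ)) :=
    (((continuous_apply ξ).comp continuous_subtype_val).tendsto a).comp hlim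
  have hev : ∀ᶠ n in atTop, (x n : K → ZMod 2) ξ = (a : K → ZMod 2) ξ := by
    have := hl.eventually (isOpen_discrete {(a : K → ZMod 2) ξ} |>.mem_nhds rfl)
    exact this
  obtain ⟨N, hN⟩ := eventually_atTop.1 hev
  obtain ⟨n, hn, h⟩ := osc_spec ξ hinj ((a : K → ZMod 2) ξ + 1) N
  have := hN n hn
  rw [hval, h] at this
  simp at this

lemma nhds_basis (W : Set HH) (hW : IsOpen W) (x : HH) (hx : x ∈ W) :
    ∃ F : Finset K, ∀ h : HH, (∀ ξ ∈ F, (h : K → ZMod 2) ξ = (x : K → ZMod 2) ξ) → h ∈ W := by
  obtain ⟨O, hO, rfl⟩ := isOpen_induced_iff.1 hW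
  obtain ⟨F, u, hu, hsub⟩ := isOpen_pi_iff.1 hO x hx
  refine ⟨F, fun h hh => hsub ?_⟩
  intro ξ hξ
  rw [hh ξ hξ]
  exact (hu ξ hξ).2

lemma seqPseudo : SequentiallyPseudocompact HH := by
  intro U hU
  choose u hu using fun n => (hU n).2
  choose F hF using fun n => nhds_basis (U n) (hU n).1 (u n) (hu n)
  let S : Set K := ⋃ n, (F n : Set K)
  have hS : S.Countable := Set.countable_iUnion fun n => Finset.countable_toSet _
  have : Countable S := hS.to_subtype
  obtain ⟨y, φ, hφ, hy⟩ := SeqCompactSpace.tendsto_subseq
    (fun n => fun ξ : S => (u n : K → ZMod 2) ξ)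
  classical
  obtain ⟨g, hg⟩ := exists_val S hS (fun ξ => if h : ξ ∈ S then y ⟨ξ, h⟩ else 0)
  refine ⟨range φ, Set.infinite_range_of_injective hφ.injective, ⟨Phi g, g, rfl⟩, ?_⟩
  intro W hW hxW
  obtain ⟨E, hE⟩ := nhds_basis W hW _ hxW
  -- the sequence is eventually equal to the limit on the finite set
  have hev : ∀ᶠ n in atTop, ∀ ξ ∈ E, ∀ h : ξ ∈ S, (u (φ n) : K → ZMod 2) ξ = y ⟨ξ, h⟩ := by
    rw [Filter.eventually_all_finset]
    intro ξ hξ
    by_cases h : ξ ∈ S
    · have hl : Tendsto (fun n => (u (φ n) : K → ZMod 2) ξ) atTop (𝓝 (y ⟨ξ, h⟩)) :=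
        ((continuous_apply (⟨ξ, h⟩ : S)).tendsto y).comp hy
      have := hl.eventually (isOpen_discrete {y ⟨ξ, h⟩} |>.mem_nhds rfl)
      filter_upwards [this] with n hn _
      exact hn
    · exact Eventually.of_forall fun n h' => absurd h' h
  obtain ⟨N, hN⟩ := eventually_atTop.1 hev
  refine (Set.finite_Iio N |>.image φ).subset ?_
  rintro _ ⟨⟨n, rfl⟩, hn⟩
  refine ⟨n, ?_, rfl⟩
  by_contra hcon
  have hnN : N ≤ n := not_lt.1 hcon
  -- a common point
  obtain ⟨g', hg'⟩ := exists_val ((E : Set K) ∪ F (φ n))
    ((Finset.countable_toSet _).union (Finset.countable_toSet _))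
    (fun ξ => if ξ ∈ F (φ n) then (u (φ n) : K → ZMod 2) ξ else Phi g ξ)
  have h1 : (⟨Phi g', g', rfl⟩ : HH) ∈ W ∩ U (φ n) := by
    constructor
    · apply hE
      intro ξ hξ
      show Phi g' ξ = Phi g ξ
      rw [hg' ξ (Or.inl hξ)]
      by_cases hξF : ξ ∈ F (φ n)
      · rw [if_pos hξF]
        have hξS : ξ ∈ S := mem_iUnion.2 ⟨φ n, hξF⟩
        rw [hN n hnN ξ hξ hξS, hg ξ hξS, dif_pos hξS]
      · rw [if_neg hξF]
    · apply hF
      intro ξ hξ
      show Phi g' ξ = _
      rw [hg' ξ (Or.inr hξ), if_pos hξ]
  rw [hn] at h1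
  exact h1

/-- **A positive answer to Q1 in ZFC.** There is a Hausdorff (hence Tychonoff) Abelian topological
group, even a Boolean one, which is sequentially pseudocompact but not selectively sequentially
pseudocompact. Moreover it has no nontrivial convergent sequences. -/
theorem result : ∃ (G : Type) (_ : AddCommGroup G) (_ : TopologicalSpace G),
    IsTopologicalAddGroup G ∧ T35Space G ∧ (∀ g : G, g + g = 0) ∧
    SequentiallyPseudocompact G ∧ ¬ SelectivelySequentiallyPseudocompact G ∧
    ∀ (x : ℕ → G), Function.Injective x → ∀ a, ¬ Tendsto x atTop (𝓝 a) := by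
  refine ⟨HH, inferInstance, inferInstance, inferInstance, inferInstance, ?_, seqPseudo, ?_,
    osc_HH⟩
  · intro g
    apply Subtype.ext
    funext ξ
    show (g : K → ZMod 2) ξ + (g : K → ZMod 2) ξ = 0
    generalize (g : K → ZMod 2) ξ = z
    revert z
    decide
  · intro hsel
    have : Infinite K := inferInstance
    let t : ℕ → K := Infinite.natEmbedding K
    have ht : Function.Injective t := (Infinite.natEmbedding K).injective
    have hU : ∀ n, IsOpen {h : HH | (h : K → ZMod 2) (t n) = 1 ∧
        ∀ m < n, (h : K → ZMod 2) (t m) = 0} ∧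
        {h : HH | (h : K → ZMod 2) (t n) = 1 ∧ ∀ m < n, (h : K → ZMod 2) (t m) = 0}.Nonempty := by
      intro n
      constructor
      · have hc : ∀ ξ, Continuous fun h : HH => (h : K → ZMod 2) ξ := fun ξ =>
          (continuous_apply ξ).comp continuous_subtype_val
        have h1 : IsOpen {h : HH | (h : K → ZMod 2) (t n) = 1} :=
          (isOpen_discrete {(1 : ZMod 2)}).preimage (hc (t n))
        have h2 : IsOpen {h : HH | ∀ m < n, (h : K → ZMod 2) (t m) = 0} := by
          have : {h : HH | ∀ m < n, (h : K → ZMod 2) (t m) = 0} =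
              ⋂ m ∈ Finset.range n, {h : HH | (h : K → ZMod 2) (t m) = 0} := by
            ext h; simp
          rw [this]
          exact isOpen_biInter_finset fun m _ =>
            (isOpen_discrete {(0 : ZMod 2)}).preimage (hc (t m))
        exact h1.inter h2
      · classical
        obtain ⟨g, hg⟩ := exists_val (range t) (countable_range t)
          (fun ξ => if ξ = t n then 1 else 0)
        refine ⟨⟨Phi g, g, rfl⟩, ?_, ?_⟩
        · show Phi g (t n) = 1
          rw [hg _ ⟨n, rfl⟩, if_pos rfl]
        · intro m hm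
          show Phi g (t m) = 0
          rw [hg _ ⟨m, rfl⟩, if_neg (fun h => hm.ne (ht h))]
    obtain ⟨x, hx, φ, hφ, a, ha⟩ := hsel _ hU
    have hinj : Function.Injective x := by
      have key : ∀ m n, m < n → x m ≠ x n := by
        intro m n hmn h
        have h1 := (hx m).1
        have h2 := (hx n).2 m hmn
        rw [h] at h1
        rw [h1] at h2
        exact one_ne_zero h2
      intro m n h
      rcases lt_trichotomy m n with h1 | h1 | h1
      · exact absurd h (key m n h1)
      · exact h1
      · exact absurd h.symm (key n m h1)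
    exact osc_HH _ (hinj.comp hφ.injective) a ha

end Pool.Agent.Results.MP_3c9c51_gt.BooleanGroup
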